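import Pool.Agent.Helper51.REC.Goals2
import Pool.Agent.Helper42.RD.VAL

/-!
# Packet REC-L_IDX: the index of the group of local powers
-/

set_option autoImplicit false

namespace Pool.Agent.Helper58.REC

open NumberField Module IsDedekindDomain
open _root_.Pool.Agent.Helper51.RP _root_.Pool.Agent.Helper42.PP _root_.Pool.Agent.Helper51.REC
open _root_.Pool.Agent.Helper42.RD (ordv_mul ordv_inv ordv_zpow ordv_eq_zero_iff val_of_notMem
  val_eq_one_of_sub)

open scoped WithZero

variable {p : ℕ} {F : Type} [Field F] [NumberField F]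

/-- `t` is close to `1`. -/
def CC (v : HeightOneSpectrum (𝓞 F)) (c : WithZero (Multiplicative ℤ)) (t : F) : Prop :=
  v.valuation F (t - 1) < 1 ∧ v.valuation F (t - 1) ≤ c

section cc

variable {v : HeightOneSpectrum (𝓞 F)} {c : WithZero (Multiplicative ℤ)}

theorem CC_one : CC v c 1 := by
  unfold CC
  rw [sub_self, map_zero]
  exact ⟨zero_lt_one, zero_le⟩

theorem CC_mul {s t : F} (hs : CC v c s) (ht : CC v c t) : CC v c (s * t) := by
  have h1 := val_eq_one_of_sub v ht.1
  have e : s * t - 1 = (s - 1) * t + (t - 1) := by ring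
  unfold CC
  rw [e]
  refine ⟨Valuation.map_add_lt _ ?_ ht.1, Valuation.map_add_le _ ?_ ht.2⟩
  · rw [map_mul, h1, mul_one]
    exact hs.1
  · rw [map_mul, h1, mul_one]
    exact hs.2

theorem CC_inv {t : F} (ht : CC v c t) : CC v c t⁻¹ := by
  have h1 := val_eq_one_of_sub v ht.1
  have h0 : t ≠ 0 := by
    rintro rfl
    rw [map_zero] at h1
    exact zero_ne_one h1
  have e : t⁻¹ - 1 = -((t - 1) * t⁻¹) := by
    field_simp
    ring
  unfold CC
  rw [e, Valuation.map_neg, map_mul, map_inv₀, h1, inv_one, mul_one]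
  exact ht

theorem CC_pow {t : F} (ht : CC v c t) (n : ℕ) : CC v c (t ^ n) := by
  induction n with
  | zero =>
    rw [pow_zero]
    exact CC_one
  | succ n ih =>
    rw [pow_succ]
    exact CC_mul ih ht

end cc

/-- The elements which are local `p`-th powers at `v`. -/
def LL (p : ℕ) (v : HeightOneSpectrum (𝓞 F)) : Subgroup Fˣ where
  carrier := {x | ∃ y : Fˣ, CC v (v.valuation F (p : F) ^ 3) ((x : F) * (y : F) ^ p)}
  mul_mem' := by
    rintro a b ⟨y, hy⟩ ⟨z, hz⟩
    refine ⟨y * z, ?_⟩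
    have e : ((a * b : Fˣ) : F) * ((y * z : Fˣ) : F) ^ p =
        ((a : F) * (y : F) ^ p) * ((b : F) * (z : F) ^ p) := by
      push_cast
      ring
    rw [e]
    exact CC_mul hy hz
  one_mem' := ⟨1, by
    have e : ((1 : Fˣ) : F) * ((1 : Fˣ) : F) ^ p = 1 := by simp
    rw [e]
    exact CC_one⟩
  inv_mem' := by
    rintro a ⟨y, hy⟩
    refine ⟨y⁻¹, ?_⟩
    have e : ((a⁻¹ : Fˣ) : F) * ((y⁻¹ : Fˣ) : F) ^ p = ((a : F) * (y : F) ^ p)⁻¹ := by
      rw [Units.val_inv_eq_inv_val, Units.val_inv_eq_inv_val, mul_inv, inv_pow]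
    rw [e]
    exact CC_inv hy

/-- The local conditions at the primes of `S`. -/
theorem locS_of [Fact p.Prime] (hA : K_APP) {S : Set (HeightOneSpectrum (𝓞 F))} (hS : S.Finite)
    {x : Fˣ} (h : ∀ v ∈ S, x ∈ LL p v) : LocS p S x := by
  classical
  have h' : ∀ v : HeightOneSpectrum (𝓞 F), ∃ y : Fˣ, v ∈ S →
      CC v (v.valuation F (p : F) ^ 3) ((x : F) * (y : F) ^ p) := by
    intro v
    by_cases hv : v ∈ S
    · obtain ⟨y, hy⟩ := h v hv
      exact ⟨y, fun _ ↦ hy⟩
    · exact ⟨1, fun h ↦ absurd h hv⟩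
  choose g hg using h'
  obtain ⟨β, hβ⟩ := hA p F S hS g 3
  refine ⟨β, fun w hw ↦ ?_⟩
  have h1 : CC w (w.valuation F (p : F) ^ 3) ((β : F) * ((g w)⁻¹ : Fˣ)) := hβ w hw
  have h2 := CC_mul (hg w hw) (CC_pow h1 p)
  have e : ((x : F) * (g w : F) ^ p) * ((β : F) * ((g w)⁻¹ : Fˣ)) ^ p =
      (x : F) * (β : F) ^ p := by
    have hne : (g w : F) ≠ 0 := (g w).ne_zero
    rw [Units.val_inv_eq_inv_val, mul_pow, inv_pow]
    field_simp
  rw [e] at h2
  exact h2

/-- Incongruent integers at a prime which does not divide `p`. -/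
theorem cyc [Fact p.Prime] (v : HeightOneSpectrum (𝓞 F)) (A : Finset (𝓞 F))
    (h1 : ∀ x ∈ A, x ∉ v.asIdeal)
    (h2 : ∀ x ∈ A, ∀ y ∈ A, x ≠ y → ¬ ∃ t : 𝓞 F, x - y * t ^ p ∈ v.asIdeal) : A.card ≤ p := by
  classical
  have hp : p.Prime := Fact.out
  let _ : Field (𝓞 F ⧸ v.asIdeal) := Ideal.Quotient.field v.asIdeal
  have hfin : Finite (𝓞 F ⧸ v.asIdeal) := inferInstance
  have hcyc : IsCyclic (𝓞 F ⧸ v.asIdeal)ˣ := inferInstance
  set G := (𝓞 F ⧸ v.asIdeal)ˣ with hG
  have hidx : (powMonoidHom p : G →* G).range.index ≤ p := by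
    rw [IsCyclic.index_powMonoidHom_range]
    exact Nat.gcd_le_right _ hp.pos
  have hne : (powMonoidHom p : G →* G).range.index ≠ 0 := by
    rw [IsCyclic.index_powMonoidHom_range]
    exact Nat.gcd_ne_zero_right hp.ne_zero
  have hmk : ∀ c : 𝓞 F, Ideal.Quotient.mk v.asIdeal c = 0 ↔ c ∈ v.asIdeal := fun c ↦
    Ideal.Quotient.eq_zero_iff_mem
  have hu : ∀ x : A, Ideal.Quotient.mk v.asIdeal (x : 𝓞 F) ≠ 0 := fun x h ↦
    h1 x x.2 ((hmk _).1 h)
  let φ : A → G ⧸ (powMonoidHom p : G →* G).range := fun x ↦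
    QuotientGroup.mk (Units.mk0 _ (hu x))
  have hφ : Function.Injective φ := by
    intro x y hxy
    by_contra hne'
    have h3 : (x : 𝓞 F) ≠ y := fun h ↦ hne' (Subtype.ext h)
    have h4 := QuotientGroup.eq.1 hxy
    obtain ⟨τ, hτ⟩ := h4
    obtain ⟨t, ht⟩ := Ideal.Quotient.mk_surjective ((τ⁻¹ : G) : 𝓞 F ⧸ v.asIdeal)
    refine h2 x x.2 y y.2 h3 ⟨t, ?_⟩
    rw [← hmk, map_sub, map_mul, map_pow, ht, sub_eq_zero]
    have h5 : (Units.mk0 _ (hu x) : G) = Units.mk0 _ (hu y) * (τ⁻¹) ^ p := by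
      have h6 : τ ^ p = (Units.mk0 _ (hu x))⁻¹ * Units.mk0 _ (hu y) := hτ
      rw [inv_pow, h6]
      group
    have h7 := congrArg (fun u : G ↦ (u : 𝓞 F ⧸ v.asIdeal)) h5
    simp only [Units.val_mul, Units.val_pow_eq_pow_val, Units.val_mk0] at h7
    exact h7
  have hfi : (powMonoidHom p : G →* G).range.FiniteIndex := ⟨hne⟩
  have hfin2 : Finite (G ⧸ (powMonoidHom p : G →* G).range) :=
    Subgroup.finite_quotient_of_finiteIndex
  have h8 := Nat.card_le_card_of_injective φ hφ
  rw [Nat.card_eq_fintype_card, Fintype.card_coe] at h8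
  exact h8.trans hidx

/-- Counting at one prime. -/
theorem local_bound [hpf : Fact p.Prime] {ε : F} (hε : IsPrimitiveRoot ε p) (hI : L_IDP)
    (v : HeightOneSpectrum (𝓞 F)) (e f : ℕ) (he : ordv v (p : F) = e)
    (hf : v.valuation F (p : F) < 1 → Ideal.absNorm v.asIdeal = p ^ f) (A : Finset Fˣ)
    (hA : ∀ x ∈ A, ∀ y ∈ A, x ≠ y → x / y ∉ LL p v) : A.card ≤ p ^ (2 + e * f) := by
  classical
  have hp : p.Prime := hpf.out
  have hpF : (p : F) ≠ 0 := by exact_mod_cast hp.ne_zero
  have hvp0 : v.valuation F (p : F) ≠ 0 := (Valuation.ne_zero_iff _).2 hpF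
  have hvp : v.valuation F (p : F) = WithZero.exp (-(e : ℤ)) := by
    have h1 : WithZero.log (v.valuation F (p : F)) = -(e : ℤ) := by
      unfold ordv at he
      linarith
    rw [← h1, WithZero.exp_log hvp0]
  -- the exponent
  obtain ⟨m, hm, hm3, hcase⟩ : ∃ m : ℕ, 1 ≤ m ∧ 3 * e ≤ m ∧
      (m = 3 * e ∧ v.valuation F (p : F) < 1 ∨ m = 1 ∧ e = 0) := by
    by_cases h0 : e = 0
    · exact ⟨1, le_rfl, by omega, Or.inr ⟨rfl, h0⟩⟩
    · refine ⟨3 * e, by omega, le_rfl, Or.inl ⟨rfl, ?_⟩⟩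
      rw [hvp, ← WithZero.exp_zero, WithZero.exp_lt_exp]
      have : 0 < e := Nat.pos_of_ne_zero h0
      omega
  have hsmall : ∀ z : F, v.valuation F (z - 1) ≤ WithZero.exp (-(m : ℤ)) →
      CC v (v.valuation F (p : F) ^ 3) z := by
    intro z hz
    constructor
    · refine lt_of_le_of_lt hz ?_
      rw [← WithZero.exp_zero, WithZero.exp_lt_exp]
      omega
    · refine hz.trans ?_
      rw [hvp, ← WithZero.exp_nsmul, WithZero.exp_le_exp]
      simp only [nsmul_eq_mul]
      push_cast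
      omega
  obtain ⟨π, hπ⟩ := v.valuation_exists_uniformizer F
  have hπ0 : π ≠ 0 := by
    rintro rfl
    rw [map_zero] at hπ
    exact WithZero.exp_ne_zero hπ.symm
  have hoπ : ordv v π = 1 := by
    unfold ordv
    rw [hπ, WithZero.log_exp]
    rfl
  -- the unit part and an integer close to it
  have hval : ∀ x : Fˣ, v.valuation F ((x : F) * π ^ (-ordv v (x : F))) = 1 := by
    intro x
    rw [← ordv_eq_zero_iff v (mul_ne_zero x.ne_zero (zpow_ne_zero _ hπ0)),
      ordv_mul v x.ne_zero (zpow_ne_zero _ hπ0), ordv_zpow v hπ0, hoπ]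
    ring
  have hex : ∀ x : Fˣ, ∃ a : 𝓞 F, a ∉ v.asIdeal ∧
      CC v (v.valuation F (p : F) ^ 3) ((a : F) / ((x : F) * π ^ (-ordv v (x : F)))) := by
    intro x
    set z := (x : F) * π ^ (-ordv v (x : F)) with hz
    have hz1 : v.valuation F z = 1 := hval x
    have hz0 : z ≠ 0 := mul_ne_zero x.ne_zero (zpow_ne_zero _ hπ0)
    obtain ⟨a, ha⟩ := v.exists_valuation_sub_lt_of_integer (K := F) hz1.le
      (Units.mk0 (WithZero.exp (-(m : ℤ))) WithZero.exp_ne_zero)
    rw [Units.val_mk0] at ha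
    have ha' : v.valuation F ((a : F) - z) < WithZero.exp (-(m : ℤ)) := ha
    have h1 : (WithZero.exp (-(m : ℤ)) : WithZero (Multiplicative ℤ)) < 1 := by
      rw [← WithZero.exp_zero, WithZero.exp_lt_exp]
      omega
    have hva : v.valuation F (a : F) = 1 := by
      rw [← hz1]
      exact Valuation.map_eq_of_sub_lt _ (by rw [hz1]; exact ha'.trans h1)
    refine ⟨a, fun h ↦ ?_, ?_⟩
    · have := (v.valuation_lt_one_iff_mem (K := F) a).2 h
      exact absurd hva this.ne
    · apply hsmall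
      have e2 : (a : F) / z - 1 = (a - z) / z := by field_simp
      rw [e2, map_div₀, hz1, div_one]
      exact ha'.le
  choose a ha1 ha2 using hex
  -- two elements of `A` in the same class
  have hkey : ∀ x y : Fˣ, ((ordv v (x : F) : ℤ) : ZMod p) = ((ordv v (y : F) : ℤ) : ZMod p) →
      (∃ t : 𝓞 F, a x - a y * t ^ p ∈ v.asIdeal ^ m) → x / y ∈ LL p v := by
    rintro x y hxy ⟨t, ht⟩
    have hle : v.asIdeal ^ m ≤ v.asIdeal := Ideal.pow_le_self (by omega)
    have htn : t ∉ v.asIdeal := by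
      intro h
      apply ha1 x
      have h3 : a y * t ^ p ∈ v.asIdeal :=
        Ideal.mul_mem_left _ _ (Ideal.pow_mem_of_mem _ h _ hp.pos)
      have h4 := v.asIdeal.add_mem (hle ht) h3
      rwa [sub_add_cancel] at h4
    have hvt := val_of_notMem v htn
    have hvy := val_of_notMem v (ha1 y)
    have ht0 : (t : F) ≠ 0 := by
      intro h
      rw [h, map_zero] at hvt
      exact zero_ne_one hvt
    have hy0 : (a y : F) ≠ 0 := by
      intro h
      rw [h, map_zero] at hvy
      exact zero_ne_one hvy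
    have hx0 : (a x : F) ≠ 0 := by
      intro h
      have := val_of_notMem v (ha1 x)
      rw [h, map_zero] at this
      exact zero_ne_one this
    have c1 : CC v (v.valuation F (p : F) ^ 3) ((a x : F) / ((a y : F) * (t : F) ^ p)) := by
      apply hsmall
      have e1 : (a x : F) / ((a y : F) * (t : F) ^ p) - 1 =
          ((a x - a y * t ^ p : 𝓞 F) : F) / ((a y : F) * (t : F) ^ p) := by
        push_cast
        field_simp
      rw [e1, map_div₀, map_mul, map_pow, hvt, hvy, one_pow, one_mul, div_one]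
      have h5 := (v.intValuation_le_pow_iff_mem (a x - a y * t ^ p) m).2 ht
      rw [← HeightOneSpectrum.valuation_of_algebraMap (K := F)] at h5
      exact h5
    obtain ⟨j, hj⟩ : ∃ j : ℤ, ordv v (x : F) - ordv v (y : F) = p * j := by
      have h6 : ((ordv v (x : F) - ordv v (y : F) : ℤ) : ZMod p) = 0 := by
        push_cast
        rw [hxy, sub_self]
      exact (ZMod.intCast_zmod_eq_zero_iff_dvd _ _).1 h6 
    have hT : ((t : F)⁻¹ * π ^ (-j)) ≠ 0 := mul_ne_zero (inv_ne_zero ht0) (zpow_ne_zero _ hπ0)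
    refine ⟨Units.mk0 _ hT, ?_⟩
    have c2 := CC_mul c1 (CC_mul (CC_inv (ha2 x)) (ha2 y))
    have hπj : π ^ (-ordv v (x : F)) = π ^ (-ordv v (y : F)) * (π ^ (-j)) ^ p := by
      rw [← zpow_natCast, ← zpow_mul, ← zpow_add₀ hπ0]
      congr 1
      linear_combination -hj
    have e3 : (((x / y : Fˣ)) : F) * ((Units.mk0 _ hT : Fˣ) : F) ^ p =
        (a x : F) / ((a y : F) * (t : F) ^ p) *
          (((a x : F) / ((x : F) * π ^ (-ordv v (x : F))))⁻¹ *
          ((a y : F) / ((y : F) * π ^ (-ordv v (y : F))))) := by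
      have hy' : (y : F) ≠ 0 := y.ne_zero
      have hx' : (x : F) ≠ 0 := x.ne_zero
      have hπy : π ^ (-ordv v (y : F)) ≠ 0 := zpow_ne_zero _ hπ0
      rw [hπj, Units.val_mk0, Units.val_div_eq_div_val, mul_pow, inv_pow]
      field_simp
    rw [e3]
    exact c2
  -- the fibres
  let r : Fˣ → ZMod p := fun x ↦ ((ordv v (x : F) : ℤ) : ZMod p)
  have hfib : ∀ b ∈ A.image r, (A.filter fun x ↦ r x = b).card ≤ p ^ (1 + e * f) := by
    intro b _
    set B := A.filter fun x ↦ r x = b with hB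
    have hinc : ∀ x ∈ B, ∀ y ∈ B, x ≠ y → ¬ ∃ t : 𝓞 F, a x - a y * t ^ p ∈ v.asIdeal ^ m := by
      intro x hx y hy hne h
      rw [hB, Finset.mem_filter] at hx hy
      exact hA x hx.1 y hy.1 hne (hkey x y (hx.2.trans hy.2.symm) h)
    have hinj : Set.InjOn a B := by
      intro x hx y hy hxy
      by_contra hne
      refine hinc x hx y hy hne ⟨1, ?_⟩
      rw [hxy, one_pow, mul_one, sub_self]
      exact Ideal.zero_mem _
    rw [← Finset.card_image_of_injOn hinj]
    have g1 : ∀ z ∈ B.image a, z ∉ v.asIdeal := by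
      intro z hz
      obtain ⟨x, -, rfl⟩ := Finset.mem_image.1 hz
      exact ha1 x
    have g2 : ∀ z ∈ B.image a, ∀ w ∈ B.image a, z ≠ w →
        ¬ ∃ t : 𝓞 F, z - w * t ^ p ∈ v.asIdeal ^ m := by
      intro z hz w hw hne
      obtain ⟨x, hx, rfl⟩ := Finset.mem_image.1 hz
      obtain ⟨y, hy, rfl⟩ := Finset.mem_image.1 hw
      exact hinc x hx y hy fun h ↦ hne (by rw [h])
    rcases hcase with ⟨h7, h8⟩ | ⟨h7, h8⟩
    · rw [h7] at g2
      exact hI p F ε hε v e f h8 he (hf h8) _ g1 g2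
    · rw [h7] at g2
      simp only [pow_one] at g2
      have := cyc v _ g1 g2
      rw [h8]
      simpa using this
  have h9 := Finset.card_le_mul_card_image A _ hfib
  have h10 : (A.image r).card ≤ p := by
    have : (A.image r).card ≤ Fintype.card (ZMod p) := Finset.card_le_univ _
    rwa [ZMod.card] at this
  calc A.card ≤ p ^ (1 + e * f) * (A.image r).card := h9
    _ ≤ p ^ (1 + e * f) * p := Nat.mul_le_mul_left _ h10
    _ = p ^ (2 + e * f) := by rw [← pow_succ]; congr 1; ring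

/-- A subgroup with few classes. -/
theorem index_le {G : Type} [CommGroup G] (H : Subgroup G) (B : ℕ)
    (h : ∀ A : Finset G, (∀ x ∈ A, ∀ y ∈ A, x ≠ y → x / y ∉ H) → A.card ≤ B) :
    H.index ≠ 0 ∧ H.index ≤ B := by
  classical
  have h1 : ∀ T : Finset (G ⧸ H), T.card ≤ B := by
    intro T
    have hinj : Function.Injective (Quotient.out : G ⧸ H → G) := Quotient.out_injective
    rw [← Finset.card_image_of_injective T hinj]
    apply h
    intro x hx y hy hne hxy
    obtain ⟨a, -, rfl⟩ := Finset.mem_image.1 hx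
    obtain ⟨b, -, rfl⟩ := Finset.mem_image.1 hy
    apply hne
    congr 1
    have h2 : (QuotientGroup.mk (Quotient.out a) : G ⧸ H) = QuotientGroup.mk (Quotient.out b) := by
      rw [eq_comm, QuotientGroup.eq, mul_comm, ← div_eq_mul_inv]
      exact hxy
    rw [QuotientGroup.out_eq', QuotientGroup.out_eq'] at h2
    exact h2
  have hfin : Finite (G ⧸ H) := by
    by_contra hinf
    rw [not_finite_iff_infinite] at hinf
    obtain ⟨T, hT⟩ := Infinite.exists_subset_card_eq (G ⧸ H) (B + 1)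
    have := h1 T
    omega
  let _ : Fintype (G ⧸ H) := Fintype.ofFinite _
  have h3 : H.index = Fintype.card (G ⧸ H) := by
    rw [Subgroup.index, Nat.card_eq_fintype_card]
  refine ⟨?_, ?_⟩
  · rw [h3]
    exact Fintype.card_ne_zero
  · rw [h3]
    exact h1 Finset.univ

/-- The sum of the local degrees. -/
theorem degrees [Fact p.Prime] (T : Finset (HeightOneSpectrum (𝓞 F)))
    (e f : HeightOneSpectrum (𝓞 F) → ℕ) (he : ∀ v, ordv v (p : F) = e v)
    (hf : ∀ v : HeightOneSpectrum (𝓞 F), v.valuation F (p : F) < 1 →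
      Ideal.absNorm v.asIdeal = p ^ f v) : ∑ v ∈ T, e v * f v ≤ finrank ℚ F := by
  classical
  have hp : p.Prime := Fact.out
  have hpF : (p : F) ≠ 0 := by exact_mod_cast hp.ne_zero
  have hdvd : ∏ v ∈ T, v.asIdeal ^ e v ∣ Ideal.span {(p : 𝓞 F)} := by
    apply Finset.prod_dvd_of_coprime
    · intro v _ w _ hvw
      have h1 : v.asIdeal ⊔ w.asIdeal = ⊤ := by
        apply Ideal.IsMaximal.coprime_of_ne v.isMaximal w.isMaximal
        intro h
        exact hvw (HeightOneSpectrum.ext h)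
      exact ((Ideal.isCoprime_iff_sup_eq.2 h1).pow)
    · intro v _
      rw [← HeightOneSpectrum.intValuation_le_pow_iff_dvd,
        ← HeightOneSpectrum.valuation_of_algebraMap (K := F)]
      have h2 : ((algebraMap (𝓞 F) F) (p : 𝓞 F)) = (p : F) := map_natCast _ p
      have hvp0 : v.valuation F (p : F) ≠ 0 := (Valuation.ne_zero_iff _).2 hpF
      have h3 : WithZero.log (v.valuation F (p : F)) = -(e v : ℤ) := by
        have := he v
        unfold ordv at this
        linarith
      have h4 : v.valuation F (p : F) = WithZero.exp (-(e v : ℤ)) := by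
        rw [← h3, WithZero.exp_log hvp0]
      have h5 : v.valuation F ((algebraMap (𝓞 F) F) (p : 𝓞 F)) = WithZero.exp (-(e v : ℤ)) := by
        rw [h2, h4]
      exact h5.le
  have hnorm : ∏ v ∈ T, Ideal.absNorm v.asIdeal ^ e v ∣ p ^ finrank ℚ F := by
    have h1 := Ideal.absNorm_dvd_absNorm_of_le (Ideal.dvd_iff_le.1 hdvd)
    rw [map_prod] at h1
    have h2 : Ideal.absNorm (Ideal.span {(p : 𝓞 F)}) = p ^ finrank ℚ F := by
      rw [Ideal.absNorm_span_singleton]
      have h3 : (Algebra.norm ℤ) (p : 𝓞 F) = (p : ℤ) ^ finrank ℤ (𝓞 F) := by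
        have := Algebra.norm_algebraMap (R := ℤ) (S := 𝓞 F) (p : ℤ)
        simpa using this
      rw [h3, NumberField.RingOfIntegers.rank, Int.natAbs_pow, Int.natAbs_natCast]
    rw [h2] at h1
    simpa [map_pow] using h1
  have h6 : ∏ v ∈ T, Ideal.absNorm v.asIdeal ^ e v = p ^ ∑ v ∈ T, e v * f v := by
    rw [← Finset.prod_pow_eq_pow_sum]
    refine Finset.prod_congr rfl fun v _ ↦ ?_
    by_cases hv : v.valuation F (p : F) < 1
    · rw [hf v hv, ← pow_mul, mul_comm]
    · have h7 : e v = 0 := by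
        by_contra h8
        apply hv
        have hvp0 : v.valuation F (p : F) ≠ 0 := (Valuation.ne_zero_iff _).2 hpF
        have h3 : WithZero.log (v.valuation F (p : F)) = -(e v : ℤ) := by
          have := he v
          unfold ordv at this
          linarith
        rw [← WithZero.exp_log hvp0, h3, ← WithZero.exp_zero, WithZero.exp_lt_exp]
        omega
      rw [h7]
      simp
  rw [h6, Nat.pow_dvd_pow_iff_le_right hp.one_lt] at hnorm
  exact hnorm

/-- **L_IDX.** -/
theorem l_idx (h1 : K_APP) (h2 : L_IDP) : Pool.Agent.Helper51.REC.L_IDX := by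
  classical
  intro p _ F _ _ ε S hS A hA
  have hp : p.Prime := Fact.out
  have hpF : (p : F) ≠ 0 := by exact_mod_cast hp.ne_zero
  have hee : ∀ v : HeightOneSpectrum (𝓞 F), ∃ e : ℕ, ordv v (p : F) = e := by
    intro v
    have h3 : v.valuation F (p : F) ≤ 1 := by
      have := v.valuation_le_one (K := F) (p : 𝓞 F)
      simpa using this
    have h4 : 0 ≤ ordv v (p : F) := by
      unfold ordv
      have hvp0 : v.valuation F (p : F) ≠ 0 := (Valuation.ne_zero_iff _).2 hpF
      rw [← WithZero.exp_log hvp0, ← WithZero.exp_zero, WithZero.exp_le_exp] at h3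
      linarith
    exact ⟨(ordv v (p : F)).toNat, (Int.toNat_of_nonneg h4).symm⟩
  choose e he using hee
  have hff : ∀ v : HeightOneSpectrum (𝓞 F), ∃ f : ℕ, v.valuation F (p : F) < 1 →
      Ideal.absNorm v.asIdeal = p ^ f := by
    intro v
    by_cases hv : v.valuation F (p : F) < 1
    · have h3 : (p : 𝓞 F) ∈ v.asIdeal := by
        rw [← v.valuation_lt_one_iff_mem (K := F)]
        show v.valuation F (algebraMap (𝓞 F) F (p : 𝓞 F)) < 1
        rw [map_natCast]
        exact hv
      have h4 : Ideal.absNorm v.asIdeal ∣ Ideal.absNorm (Ideal.span {(p : 𝓞 F)}) :=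
        Ideal.absNorm_dvd_absNorm_of_le ((Ideal.span_singleton_le_iff_mem _).2 h3)
      have h5 : Ideal.absNorm (Ideal.span {(p : 𝓞 F)}) = p ^ finrank ℤ (𝓞 F) := by
        rw [Ideal.absNorm_span_singleton]
        have h6 : (Algebra.norm ℤ) (p : 𝓞 F) = (p : ℤ) ^ finrank ℤ (𝓞 F) := by
          have := Algebra.norm_algebraMap (R := ℤ) (S := 𝓞 F) (p : ℤ)
          simpa using this
        rw [h6, Int.natAbs_pow, Int.natAbs_natCast]
      rw [h5] at h4
      obtain ⟨f, -, hf⟩ := (Nat.dvd_prime_pow hp).1 h4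
      exact ⟨f, fun _ ↦ hf⟩
    · exact ⟨0, fun h ↦ absurd h hv⟩
  choose f hf using hff
  have hidx : ∀ v : HeightOneSpectrum (𝓞 F), (LL p v).index ≠ 0 ∧
      (LL p v).index ≤ p ^ (2 + e v * f v) := fun v ↦
    index_le _ _ fun B hB ↦ local_bound hS.prim h2 v (e v) (f v) (he v) (hf v) B hB
  let _ : Fintype S := hS.fin.fintype
  set H : Subgroup Fˣ := ⨅ v : S, LL p (v : HeightOneSpectrum (𝓞 F)) with hH
  have hH0 : H.index ≠ 0 := Subgroup.index_iInf_ne_zero fun v ↦ (hidx v).1
  have hHle : H.index ≤ ∏ v : S, (LL p (v : HeightOneSpectrum (𝓞 F))).index :=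
    Subgroup.index_iInf_le _
  have hcard : A.card ≤ H.index := by
    have hfi : H.FiniteIndex := ⟨hH0⟩
    have hfin : Finite (Fˣ ⧸ H) := Subgroup.finite_quotient_of_finiteIndex
    let φ : A → Fˣ ⧸ H := fun x ↦ QuotientGroup.mk (x : Fˣ)
    have hφ : Function.Injective φ := by
      intro x y hxy
      by_contra hne
      have h3 : (x : Fˣ) ≠ y := fun h ↦ hne (Subtype.ext h)
      apply hA x x.2 y y.2 h3
      apply locS_of h1 hS.fin
      intro v hv
      have h4 : (x : Fˣ) / y ∈ H := by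
        have h5 := QuotientGroup.eq.1 hxy.symm
        rwa [mul_comm, ← div_eq_mul_inv] at h5
      exact (Subgroup.mem_iInf.1 h4) ⟨v, hv⟩
    have h8 := Nat.card_le_card_of_injective φ hφ
    rw [Nat.card_eq_fintype_card, Fintype.card_coe] at h8
    exact h8
  have hprod : ∏ v : S, (LL p (v : HeightOneSpectrum (𝓞 F))).index ≤
      p ^ (2 * S.ncard + finrank ℚ F) := by
    have h3 : ∏ v : S, (LL p (v : HeightOneSpectrum (𝓞 F))).index ≤
        ∏ v : S, p ^ (2 + e v * f v) := Finset.prod_le_prod' fun v _ ↦ (hidx v).2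
    refine h3.trans ?_
    rw [Finset.prod_pow_eq_pow_sum, Finset.sum_add_distrib, Finset.sum_const, Finset.card_univ]
    apply Nat.pow_le_pow_right hp.pos
    have h4 : Fintype.card S = S.ncard := by
      rw [← Nat.card_eq_fintype_card]
      rfl
    have h5 : ∑ v : S, e v * f v = ∑ v ∈ hS.fin.toFinset, e v * f v := by
      rw [← Finset.sum_coe_sort hS.fin.toFinset]
      exact Fintype.sum_equiv (Equiv.subtypeEquivRight fun v ↦ by simp) _ _ fun v ↦ rfl
    have h6 := degrees (p := p) hS.fin.toFinset e f he hf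
    rw [h4, h5, smul_eq_mul]
    omega
  exact hcard.trans (hHle.trans hprod)

end Pool.Agent.Helper58.REC
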